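import Pool.Agent.R978.PN.D

set_option autoImplicit false

/-!
# Residues of the 5-regular partition function with randomly deleted parts (MP_d6455f_nt)

Let `R` be a random set of positive integers, the events `a ∈ R` being independent, and suppose that
`K √(log a / a) ≤ P (a ∈ R) ≤ 1 - K √(log a / a)` for every `K` and all large `a` not divisible by 5.
Let `b n` be the number of 5-regular partitions of `n` with no part in `R`. For every strictly
increasing sequence `s`, almost surely for every modulus `m` and every `L` all words of length `L` over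
`ℤ / m` occur with the frequency `m ^ (-L)` among the words `b (s k), …, b (s k + L - 1)` modulo `m`.

Method: as in `Pool.Agent.Results.MP_6d7a37_nt.RandomlyDeletedParts`; in the products over the `a` one
uses only the `a ∈ (u / 2, u]` for which neither `a` nor `u - a` is divisible by 5. Among any three
consecutive integers there is such an `a`.
-/

namespace Pool.Agent.Results.MP_d6455f_nt.RandomlyDeletedParts

open MeasureTheory ProbabilityTheory Filter Topology

/-- the number of partitions of `n` with no part divisible by 5 and no part in `R` -/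
noncomputable def fiveRegularAvoiding (R : Set ℕ) (n : ℕ) : ℕ :=
  Nat.card {p : Nat.Partition n // ∀ a ∈ p.parts, ¬ 5 ∣ a ∧ a ∉ R}

theorem result {Ω : Type} [MeasurableSpace Ω] {P : Measure Ω} [IsProbabilityMeasure P]
    (R : Ω → Set ℕ) (hm : ∀ a : ℕ, MeasurableSet {ω | a ∈ R ω})
    (hi : iIndepSet (fun a : ℕ => {ω | a ∈ R ω}) P)
    (hR : ∀ K : ℝ, ∀ᶠ a : ℕ in atTop, ¬ 5 ∣ a → K * √(Real.log a / a) ≤ P.real {ω | a ∈ R ω} ∧
      P.real {ω | a ∈ R ω} ≤ 1 - K * √(Real.log a / a))
    (s : ℕ → ℕ) (hs : StrictMono s) :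
    ∀ᵐ ω ∂P, ∀ m : ℕ, 1 ≤ m → ∀ (L : ℕ) (w : Fin L → ZMod m),
      Tendsto (fun x : ℕ => (((Finset.range x).filter fun k => ∀ i : Fin L,
        (fiveRegularAvoiding (R ω) (s k + i) : ZMod m) = w i).card : ℝ) / x)
        atTop (𝓝 ((1 / (m : ℝ)) ^ L)) := by
  have h5 : ∀ a : ℕ, a % 5 ≠ 0 % 5 ↔ ¬ 5 ∣ a := by intro a; omega
  have h1 := Pool.Agent.R978.PN.main 5 0 (by norm_num) R hm hi
    (fun K => (hR K).mono fun a ha hc => ha ((h5 a).1 hc)) hs
  have h2 : ∀ (Q : Set ℕ) (n : ℕ), Pool.Agent.R978.PN.pcl 5 0 Q n = fiveRegularAvoiding Q n := by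
    intro Q n
    unfold Pool.Agent.R978.PN.pcl fiveRegularAvoiding
    simp only [h5]
  simp only [h2] at h1
  exact h1

end Pool.Agent.Results.MP_d6455f_nt.RandomlyDeletedParts
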